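import Mathlib
import Pool.Agent.Helper85_Leo.Defs
import Pool.Agent.Leo3.Stmts

/-!
# Leopoldt's conjecture at 3 in totally real quadratic extensions of a totally real field:
# algebraic part (fields `K = k(√(3m))`, `K' = k(√-m)`, binary cubic forms over `𝓞 k`)

Paper: PAPER_LEO4_STR.md.
-/

set_option autoImplicit false

open NumberField IsDedekindDomain WithZero Module
open Pool.Agent.Helper85_Leo Pool.Agent.Leo3

namespace Pool.Agent.LeoK

/-! ## Selmer type groups -/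

/-- the valuation of `z` at every prime not above `3` is divisible by `3`. -/
def ValCube3 {L : Type} [Field L] [NumberField L] (z : L) : Prop :=
  ∀ q : HeightOneSpectrum (𝓞 L), (3 : 𝓞 L) ∉ q.asIdeal → ∃ x : ℤᵐ⁰, q.valuation L z = x ^ 3

/-- The Selmer type group of `L` vanishes (relaxed at the primes above `3`, locally a cube there). -/
def W3 (L : Type) [Field L] [NumberField L] : Prop :=
  ∀ z : L, z ≠ 0 → ValCube3 z → LocCube z → ∃ t : L, t ^ 3 = z

/-- The relative Selmer type group of the quadratic extension `K / k` vanishes: only elements whose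
norm is a cube in `k`. -/
def WMinus (k K : Type) [Field k] [NumberField k] [Field K] [NumberField K] [Algebra k K] : Prop :=
  ∀ z : K, z ≠ 0 → (∃ c : k, Algebra.norm k z = c ^ 3) → ValCube3 z → LocCube z → ∃ t : K, t ^ 3 = z

/-- `E / K` is unramified at every prime of `E` not above `3`. -/
def UnrOut3 (K E : Type) [Field K] [NumberField K] [Field E] [NumberField E] [Algebra K E] : Prop :=
  ∀ (P : Ideal (𝓞 E)) [P.IsPrime], P ≠ ⊥ → (3 : 𝓞 E) ∉ P → Algebra.IsUnramifiedAt (𝓞 K) P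

/-- Every prime of `M` not above `3` and ramified over `k` lies above a prime of `k` with only one
prime of `K` above it. -/
def TameNonsplit (k K M : Type) [Field k] [NumberField k] [Field K] [NumberField K]
    [Field M] [NumberField M] [Algebra k K] [Algebra k M] : Prop :=
  ∀ (P : Ideal (𝓞 M)) [P.IsPrime], P ≠ ⊥ → (3 : 𝓞 M) ∉ P → ¬ Algebra.IsUnramifiedAt (𝓞 k) P →
    ∀ (Q Q' : Ideal (𝓞 K)) [Q.IsPrime] [Q'.IsPrime], Q.under (𝓞 k) = P.under (𝓞 k) →
      Q'.under (𝓞 k) = P.under (𝓞 k) → Q = Q'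

/-- the trace of `𝓞 L` is onto modulo 3. -/
def TrOn (L : Type) [Field L] [NumberField L] : Prop :=
  ∃ x : 𝓞 L, ¬ (3 : ℤ) ∣ Algebra.trace ℤ (𝓞 L) x

/-- The class of base fields: totally real `3`-rational fields without local cube roots of unity. -/
structure Rat3 (k : Type) [Field k] [NumberField k] : Prop where
  real : IsTotallyReal k
  nomu : NoMu k
  w3 : W3 k
  tr : TrOn k

/-! ## The parameters `m` -/

/-- The admissible `m`. -/
structure Adm (k : Type) [Field k] [NumberField k] (m : 𝓞 k) : Prop where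
  pos : ∀ φ : k →+* ℝ, 0 < φ m
  sqf : Squarefree (Ideal.span {m})
  two : ∃ q : 𝓞 k, (4 : 𝓞 k) ∣ q ^ 2 + m
  three : ∀ (φ : k →+* Om) (y : Om), InLoc φ y → y ^ 2 ≠ -φ (m : k)
  nsq : ∀ x : k, x ^ 2 ≠ 3 * (m : k)

/-- ADM: a congruence condition that implies `Adm.three`. -/
def AdmStmt : Prop :=
  ∀ (k : Type) [Field k] [NumberField k] (m : 𝓞 k),
    (∀ v : HeightOneSpectrum (𝓞 k), (3 : 𝓞 k) ∈ v.asIdeal → ∀ x : 𝓞 k, x ^ 2 + m ∉ v.asIdeal) →
    ∀ (φ : k →+* Om) (y : Om), InLoc φ y → y ^ 2 ≠ -φ (m : k)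

/-- The arithmetic conditions on `t₀` (the trace of the minus part). -/
structure Bad (k : Type) [Field k] [NumberField k] (m : 𝓞 k) (t₀ s₀ : k) : Prop where
  disc : t₀ ^ 2 - 4 = 3 * (m : k) * s₀ ^ 2
  noroot : ∀ x : k, x ^ 3 - 3 * x - t₀ ≠ 0
  val : ∀ q : HeightOneSpectrum (𝓞 k), (3 : 𝓞 k) ∉ q.asIdeal →
    q.valuation k t₀ ≤ 1 ∨ ∃ x : ℤᵐ⁰, q.valuation k t₀ = x ^ 3
  loc : ∀ φ : k →+* Om, ∃ x : Om, InLoc φ x ∧ x ^ 3 - 3 * x = φ t₀

/-! ## Tools above 3 -/

/-- APX: `k` is dense in its completions at 3 (elements of `Om` fixed by the stabiliser). -/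
def ApxStmt : Prop :=
  ∀ (k : Type) [Field k] [NumberField k] (φ : k →+* Om) (t : Om), InLoc φ t →
    ∀ n : ℕ, ∃ x : k, ‖φ x - t‖ ≤ (3 : ℝ)⁻¹ ^ n

/-- PHI: the primes above 3 come from embeddings into `Om`. -/
def PhiStmt : Prop :=
  ∀ (L : Type) [Field L] [NumberField L] (P : Ideal (𝓞 L)) [P.IsPrime], (3 : 𝓞 L) ∈ P →
    ∃ φ : L →+* Om, ∀ x : 𝓞 L, x ∈ P ↔ ‖φ (x : L)‖ < 1

/-- QLO: local elements of a quadratic extension `K / k`, seen from `k`. -/
def QloStmt : Prop :=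
  ∀ (k K : Type) [Field k] [Field K] [Algebra k K] (τ : K ≃ₐ[k] K), finrank k K = 2 → τ ≠ 1 →
    ∀ (φ : K →+* Om) (ρ : Om ≃ₐ[ℚ_[3]] Om), FixF (φ.comp (algebraMap k K)) ρ →
      ((∀ x : K, ρ (φ x) = φ x) ∨ (∀ x : K, ρ (φ x) = φ (τ x))) ∧
      ∀ t : Om, InLoc φ t → InLoc φ (ρ t)

/-! ## From `K` to `Bad` -/

/-- NMF: no local cube roots of unity in `K`. -/
def NmfStmt : Prop :=
  ∀ (k K : Type) [Field k] [NumberField k] [Field K] [NumberField K] [Algebra k K] (m : 𝓞 k) (r : K),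
    finrank k K = 2 → r ^ 2 = algebraMap k K (3 * (m : k)) → (∀ x : k, x ^ 2 ≠ 3 * (m : k)) →
    NoMu k → (∀ (φ : k →+* Om) (y : Om), InLoc φ y → y ^ 2 ≠ -φ (m : k)) → NoMu K

/-- REDM: if there is no `Bad` pair then the relative Selmer type group vanishes. -/
def RedmStmt : Prop :=
  ∀ (k K : Type) [Field k] [NumberField k] [Field K] [NumberField K] [Algebra k K] (m : 𝓞 k) (r : K),
    finrank k K = 2 → r ^ 2 = algebraMap k K (3 * (m : k)) → (∀ x : k, x ^ 2 ≠ 3 * (m : k)) →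
    NoMu K → (∀ t₀ s₀ : k, ¬ Bad k m t₀ s₀) → WMinus k K

/-- REDP: the plus part. -/
def RedpStmt : Prop :=
  ∀ (k K : Type) [Field k] [NumberField k] [Field K] [NumberField K] [Algebra k K],
    finrank k K = 2 → NoMu K → W3 k → WMinus k K → W3 K

/-- LEOR: relative version of the implication `W3 ⟹ Leopoldt`. -/
def LeorStmt : Prop :=
  ∀ (k K : Type) [Field k] [NumberField k] [Field K] [NumberField K] [Algebra k K],
    finrank k K = 2 → NoMu K → WMinus k K → LeopoldtAt k 3 → LeopoldtAt K 3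

/-- LEO: `W3` implies Leopoldt's conjecture at 3. -/
def Leo3Stmt : Prop :=
  ∀ (L : Type) [Field L] [NumberField L], NoMu L → W3 L → LeopoldtAt L 3

/-- TWI: the relative vanishing goes up along Galois extensions `M / k` of 3-power degree
(`L = K M`). -/
def TwiStmt : Prop :=
  ∀ (k K M L : Type) [Field k] [NumberField k] [Field K] [NumberField K] [Field M] [NumberField M]
    [Field L] [NumberField L] [Algebra k K] [Algebra k M] [Algebra k L] [Algebra K L] [Algebra M L]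
    [IsScalarTower k K L] [IsScalarTower k M L] [IsGalois k M] (j : ℕ),
    finrank k K = 2 → finrank k M = 3 ^ j → finrank M L = 2 → TameNonsplit k K M →
    NoMu K → WMinus k K → NoMu L ∧ WMinus M L

/-- GUP3: going up in Galois extensions of 3-power degree unramified outside 3. -/
def Gup3Stmt : Prop :=
  ∀ (K L : Type) [Field K] [NumberField K] [Field L] [NumberField L] [Algebra K L] [IsGalois K L]
    (j : ℕ), finrank K L = 3 ^ j → UnrOut3 K L → NoMu K → W3 K → NoMu L ∧ W3 L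

/-! ## From `Bad` to the class group of `K'` -/

/-- HIL: Hilbert's Theorem 94 for an unramified cyclic cubic extension. -/
def HilStmt : Prop :=
  ∀ (K L : Type) [Field K] [NumberField K] [Field L] [NumberField L] [Algebra K L] [IsGalois K L],
    finrank K L = 3 → (∀ (P : Ideal (𝓞 L)) [P.IsPrime], P ≠ ⊥ → Algebra.IsUnramifiedAt (𝓞 K) P) →
    3 * Units.rank K < Units.rank L → (∀ x : K, x ^ 3 = 1 → x = 1) →
      3 ∣ Fintype.card (ClassGroup (𝓞 K))

/-- UNR: the cyclic cubic extension of `K' = k(√-m)` attached to a `Bad` pair. -/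
def UnrStmt : Prop :=
  ∀ (k F : Type) [Field k] [NumberField k] [Field F] [NumberField F] [Algebra k F] (m : 𝓞 k)
    (s : F) (t₀ s₀ : k), finrank k F = 2 → s ^ 2 = -algebraMap k F (m : k) → Bad k m t₀ s₀ →
    ∃ (L : Type) (_ : Field L) (_ : NumberField L) (_ : Algebra F L), IsGalois F L ∧
      finrank F L = 3 ∧ ∀ (P : Ideal (𝓞 L)) [P.IsPrime], P ≠ ⊥ → Algebra.IsUnramifiedAt (𝓞 F) P

/-- RNK: unit ranks, and no cube roots of unity in `K'`. -/
def RnkStmt : Prop :=
  ∀ (k F L : Type) [Field k] [NumberField k] [Field F] [NumberField F] [Field L] [NumberField L]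
    [Algebra k F] [Algebra F L] (m : 𝓞 k) (s : F), IsTotallyReal k → finrank k F = 2 →
    s ^ 2 = -algebraMap k F (m : k) → (∀ φ : k →+* ℝ, 0 < φ m) → (∀ x : k, x ^ 2 ≠ 3 * (m : k)) →
    finrank F L = 3 → 3 * Units.rank F < Units.rank L ∧ ∀ x : F, x ^ 3 = 1 → x = 1

/-- REF: the reflection step. -/
def RefStmt : Prop :=
  ∀ (k F : Type) [Field k] [NumberField k] [Field F] [NumberField F] [Algebra k F] (m : 𝓞 k)
    (s : F), IsTotallyReal k → finrank k F = 2 → s ^ 2 = -algebraMap k F (m : k) → Adm k m →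
    (∃ t₀ s₀ : k, Bad k m t₀ s₀) → 3 ∣ Fintype.card (ClassGroup (𝓞 F))

/-! ## Binary cubic forms -/

section forms

variable {R : Type} [CommRing R]

/-- the cubic form `a x³ + 3 b x² y + 3 c x y² + d y³`. -/
def cub (a b c d x y : R) : R := a * x ^ 3 + 3 * b * x ^ 2 * y + 3 * c * x * y ^ 2 + d * y ^ 3

/-- Hessian `P x² + Q x y + R y²`. -/
def fP (a b c : R) : R := b ^ 2 - a * c

def fQ (a b c d : R) : R := b * c - a * d

def fR (b c d : R) : R := c ^ 2 - b * d

/-- `4 P R - Q²`. -/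
def fM (a b c d : R) : R := 4 * fP a b c * fR b c d - fQ a b c d ^ 2

/-- no nontrivial zero. -/
def Irr (a b c d : R) : Prop := ∀ x y : R, cub a b c d x y = 0 → x = 0 ∧ y = 0

end forms

/-- QUA: conjugation and integers of `K' = k(√-m)`. -/
def QuaStmt : Prop :=
  ∀ (k F : Type) [Field k] [NumberField k] [Field F] [NumberField F] [Algebra k F] (m : 𝓞 k)
    (s : F), finrank k F = 2 → s ^ 2 = -algebraMap k F (m : k) → (∀ x : k, x ^ 2 ≠ -(m : k)) →
    Squarefree (Ideal.span {m}) → (∃ q : 𝓞 k, (4 : 𝓞 k) ∣ q ^ 2 + m) →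
    ∃ c : F ≃ₐ[k] F, c s = -s ∧
      (∀ x : 𝓞 F, ∃ y : 𝓞 k, (x : F) - c x = algebraMap k F (y : k) * s) ∧
      ∃ w : 𝓞 F, (w : F) - c w = s ∧
        ∀ x : 𝓞 F, ∃ p q : 𝓞 k, (x : F) = algebraMap k F (p : k) + algebraMap k F (q : k) * w

/-- the conjugate ideal. -/
noncomputable def conjI {F : Type} [Field F] (c : F ≃+* F) (I : Ideal (𝓞 F)) : Ideal (𝓞 F) :=
  I.map (RingOfIntegers.mapRingEquiv c)

/-- BAS: an `𝓞 k`-basis of an ideal of `𝓞 F` whose norm is principal. -/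
def BasStmt : Prop :=
  ∀ (k F : Type) [Field k] [NumberField k] [Field F] [NumberField F] [Algebra k F] (m : 𝓞 k)
    (s : F) (c : F ≃ₐ[k] F), finrank k F = 2 → s ^ 2 = -algebraMap k F (m : k) → c s = -s →
    (∀ x : k, x ^ 2 ≠ -(m : k)) →
    (∀ x : 𝓞 F, ∃ y : 𝓞 k, (x : F) - c x = algebraMap k F (y : k) * s) →
    (∃ w : 𝓞 F, (w : F) - c w = s ∧
        ∀ x : 𝓞 F, ∃ p q : 𝓞 k, (x : F) = algebraMap k F (p : k) + algebraMap k F (q : k) * w) →
    ∀ (I : Ideal (𝓞 F)) (ν : 𝓞 k), ν ≠ 0 →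
      I * conjI (c : F ≃+* F) I = Ideal.span {algebraMap (𝓞 k) (𝓞 F) ν} →
      ∃ u v : 𝓞 F, u ∈ I ∧ v ∈ I ∧
        (∀ x ∈ I, ∃ p q : 𝓞 k, (x : F) = algebraMap k F (p : k) * u + algebraMap k F (q : k) * v) ∧
        (u : F) * c v - (v : F) * c u = algebraMap k F (ν : k) * s

/-- IDL: an ideal whose cube is principal, over a field `k` of class number prime to 3: generator
`β` of the cube and `ν` of the norm with `β c(β) = ν³`. -/
def IdlStmt : Prop :=
  ∀ (k F : Type) [Field k] [NumberField k] [Field F] [NumberField F] [Algebra k F]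
    (c : F ≃ₐ[k] F), finrank k F = 2 → c ≠ 1 → ¬ 3 ∣ Fintype.card (ClassGroup (𝓞 k)) →
    ∀ I : Ideal (𝓞 F), I ≠ ⊥ → (I ^ 3).IsPrincipal →
      ∃ (β : 𝓞 F) (ν : 𝓞 k), β ≠ 0 ∧ ν ≠ 0 ∧ I ^ 3 = Ideal.span {β} ∧
        (β : F) * c β = algebraMap k F (ν : k) ^ 3 ∧
        I * conjI (c : F ≃+* F) I = Ideal.span {algebraMap (𝓞 k) (𝓞 F) ν}

/-- CUB: the cubic form of an ideal with `I³ ⊆ (β)`, `β c(β) = ν³`. -/
def CubStmt : Prop :=
  ∀ (k F : Type) [Field k] [NumberField k] [Field F] [NumberField F] [Algebra k F] (m : 𝓞 k)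
    (s : F) (c : F ≃ₐ[k] F), finrank k F = 2 → s ^ 2 = -algebraMap k F (m : k) → c s = -s →
    (∀ x : k, x ^ 2 ≠ -(m : k)) →
    (∀ x : 𝓞 F, ∃ y : 𝓞 k, (x : F) - c x = algebraMap k F (y : k) * s) →
    ∀ (I : Ideal (𝓞 F)) (u v β : 𝓞 F) (ν : 𝓞 k), ν ≠ 0 → β ≠ 0 → u ∈ I → v ∈ I →
      (u : F) * c v - (v : F) * c u = algebraMap k F (ν : k) * s →
      (∀ x ∈ I ^ 3, β ∣ x) → (β : F) * c β = algebraMap k F (ν : k) ^ 3 →
      ∃ a₀ a₁ a₂ a₃ : 𝓞 k,
        (∀ x y : k, algebraMap k F (cub (a₀ : k) a₁ a₂ a₃ x y) * s =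
          (algebraMap k F x * u + algebraMap k F y * v) ^ 3 / β -
            c ((algebraMap k F x * u + algebraMap k F y * v) ^ 3 / β)) ∧
        (∀ x y : k, algebraMap k F ((fP a₀ a₁ a₂ : 𝓞 k) * x ^ 2 + (fQ a₀ a₁ a₂ a₃ : 𝓞 k) * x * y +
            (fR a₁ a₂ a₃ : 𝓞 k) * y ^ 2) * algebraMap k F (ν : k) =
          (algebraMap k F x * u + algebraMap k F y * v) *
            c (algebraMap k F x * u + algebraMap k F y * v)) ∧
        fM a₀ a₁ a₂ a₃ = m

/-- EIS: a class of order 3 gives an irreducible form with positive definite Hessian. -/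
def EisStmt : Prop :=
  ∀ (k F : Type) [Field k] [NumberField k] [Field F] [NumberField F] [Algebra k F] (m : 𝓞 k)
    (s : F), IsTotallyReal k → finrank k F = 2 → s ^ 2 = -algebraMap k F (m : k) → Adm k m →
    ¬ 3 ∣ Fintype.card (ClassGroup (𝓞 k)) → 3 ∣ Fintype.card (ClassGroup (𝓞 F)) →
    ∃ a b c d : 𝓞 k, Irr a b c d ∧ (∀ φ : k →+* ℝ, 0 < φ (fP a b c : 𝓞 k)) ∧ fM a b c d = m

/-- STAB: a form without zeros over `k` whose `3 m` is not a square has no automorphism of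
determinant `±1`. -/
def StabStmt : Prop :=
  ∀ (k : Type) [Field k] [CharZero k] (a b c d : k), Irr a b c d →
    (∀ x : k, x ^ 2 ≠ 3 * fM a b c d) → ∀ x y z w : k, (x * w - y * z) ^ 2 = 1 →
    (∀ X Y : k, cub a b c d (x * X + y * Y) (z * X + w * Y) = cub a b c d X Y) →
      x = 1 ∧ y = 0 ∧ z = 0 ∧ w = 1

/-- ORB: consequence of STAB for the counting of marks.  The form `f` in the bases `(x, z), (y, w)`
and `(x', z'), (y', w')` of determinant `±1`: if the forms agree up to a translation then the first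
vectors and the determinants agree. -/
def OrbStmt : Prop :=
  ∀ (k : Type) [Field k] [CharZero k] (a b c d : k), Irr a b c d →
    (∀ x : k, x ^ 2 ≠ 3 * fM a b c d) → ∀ x y z w x' y' z' w' t : k,
    (x * w - y * z) ^ 2 = 1 → (x' * w' - y' * z') ^ 2 = 1 →
    (∀ X Y : k, cub a b c d (x * X + y * Y) (z * X + w * Y) =
      cub a b c d (x' * (X + t * Y) + y' * Y) (z' * (X + t * Y) + w' * Y)) →
      x = x' ∧ z = z' ∧ x * w - y * z = x' * w' - y' * z'

/-! ## The class number of `K` -/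

/-- RAT: the vanishing implies that the class number is prime to 3. -/
def RatStmt : Prop :=
  ∀ (K : Type) [Field K] [NumberField K], Rat3 K → ¬ 3 ∣ Fintype.card (ClassGroup (𝓞 K))

/-! ## Main statement of the algebraic part -/

/-- STR: if the relative Selmer type group of `K = k(√(3m))` does not vanish then `m` has a form. -/
def StrStmt : Prop :=
  ∀ (k K : Type) [Field k] [NumberField k] [Field K] [NumberField K] [Algebra k K] (m : 𝓞 k) (r : K),
    IsTotallyReal k → NoMu k → ¬ 3 ∣ Fintype.card (ClassGroup (𝓞 k)) → finrank k K = 2 →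
    r ^ 2 = algebraMap k K (3 * (m : k)) → Adm k m → NoMu K ∧ (¬ WMinus k K →
    ∃ a b c d : 𝓞 k, Irr a b c d ∧ (∀ φ : k →+* ℝ, 0 < φ (fP a b c : 𝓞 k)) ∧ fM a b c d = m)

/-- INH: for such `K` with vanishing relative group: everything that follows. -/
def InhStmt : Prop :=
  ∀ (k K : Type) [Field k] [NumberField k] [Field K] [NumberField K] [Algebra k K] (m : 𝓞 k) (r : K),
    IsTotallyReal k → finrank k K = 2 → r ^ 2 = algebraMap k K (3 * (m : k)) → Adm k m →
    NoMu K → WMinus k K →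
      IsTotallyReal K ∧ (LeopoldtAt k 3 → LeopoldtAt K 3) ∧
      (Rat3 k → Rat3 K ∧ ¬ 3 ∣ Fintype.card (ClassGroup (𝓞 K))) ∧
      ∀ (M L : Type) [Field M] [NumberField M] [Field L] [NumberField L] [Algebra k M] [Algebra k L]
        [Algebra K L] [Algebra M L] [IsScalarTower k K L] [IsScalarTower k M L] [IsGalois k M]
        (j : ℕ), finrank k M = 3 ^ j → finrank M L = 2 → TameNonsplit k K M →
        LeopoldtAt M 3 → LeopoldtAt L 3

end Pool.Agent.LeoK
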