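import Mathlib
import Pool.Agent.LeoK.StrStmts

/-!
# Leopoldt's conjecture at 3 and quadratic extensions of totally real fields: counting definitions

Common definitions for the counting part (general form), MP_5f2860_nt.
`k` is a totally real number field, `Sg k` its real embeddings, `Frame k` the data used to count:
an integral basis and a cone `F` of totally positive vectors, fundamental domain for squares of
units.
-/

set_option autoImplicit false

open NumberField IsDedekindDomain Module MeasureTheory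

namespace Pool.Agent.LeoK

/-- The real embeddings. -/
abbrev Sg (k : Type) [Field k] : Type := k →+* ℝ

/-- The coordinates of an element. -/
def lam {k : Type} [Field k] (x : k) : Sg k → ℝ := fun s => s x

/-- Data for counting over `k`. -/
structure Frame (k : Type) [Field k] [NumberField k] where
  /-- index set of an integral basis -/
  κ : Type
  fin : Fintype κ
  om : Basis κ ℤ (𝓞 k)
  B : Basis κ ℝ (Sg k → ℝ)
  hB : ∀ i, B i = lam (om i : k)
  /-- the cone -/
  F : Set (Sg k → ℝ)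
  meas : MeasurableSet F
  pos : ∀ x ∈ F, ∀ s, 0 < x s
  scal : ∀ x ∈ F, ∀ t : ℝ, 0 < t → t • x ∈ F
  cF : ℝ
  cmp : ∀ x ∈ F, ∀ s s', x s ≤ cF * x s'
  null : volume (frontier (F ∩ {x | ∏ s, x s ≤ 1})) = 0
  exi : ∀ x : Sg k → ℝ, (∀ s, 0 < x s) → ∃ η : (𝓞 k)ˣ, lam ((η : 𝓞 k) : k) ^ 2 * x ∈ F
  uni : ∀ x : Sg k → ℝ, x ∈ F → ∀ η : (𝓞 k)ˣ, lam ((η : 𝓞 k) : k) ^ 2 * x ∈ F → η = 1 ∨ η = -1

attribute [instance] Frame.fin

variable {k : Type} [Field k] [NumberField k]

/-- The covolume of the ring of integers. -/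
noncomputable def Frame.D (Φ : Frame k) : ℝ := (volume (ZSpan.fundamentalDomain Φ.B)).toReal

/-- The volume of the cone. -/
noncomputable def Frame.vF (Φ : Frame k) : ℝ := (volume (Φ.F ∩ {x | ∏ s, x s ≤ 1})).toReal

/-- The coefficient `X` of the cubic covariant of `a x³ + 3 b x² y + 3 c x y² + d y³`:
`X² + a² M = 4 P³` (`fP, fQ, fR, fM` are in `StrStmts`). -/
def fX {A : Type} [CommRing A] (a b c d : A) : A := 2 * b ^ 3 - 3 * a * b * c + a ^ 2 * d

/-- Quadruples `(a, b, c, d)` as functions on `Fin 4`. -/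
abbrev Q4 (A : Type) : Type := Fin 4 → A

/-- `P` and `M` of a quadruple. -/
def qP {A : Type} [CommRing A] (v : Q4 A) : A := fP (v 0) (v 1) (v 2)

def qM {A : Type} [CommRing A] (v : Q4 A) : A := fM (v 0) (v 1) (v 2) (v 3)

/-- The region of normalised quadruples: `G` is the domain for `b / a`, and `P / √M`, `M` are in the
cone, with norms at most `T`, `Z`. -/
structure Reg (Φ : Frame k) (G : Set (Sg k → ℝ)) (Z T : ℝ) (v : Q4 (𝓞 k)) : Prop where
  ane : v 0 ≠ 0
  bG : (fun s : Sg k => s (v 1 : k) / s (v 0 : k)) ∈ G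
  mF : lam ((qM v : 𝓞 k) : k) ∈ Φ.F
  xF : (fun s : Sg k => s ((qP v : 𝓞 k) : k) / Real.sqrt (s ((qM v : 𝓞 k) : k))) ∈ Φ.F
  mZ : ∏ s : Sg k, s ((qM v : 𝓞 k) : k) ≤ Z
  xT : ∏ s : Sg k, s ((qP v : 𝓞 k) : k) / Real.sqrt (s ((qM v : 𝓞 k) : k)) ≤ T

/-- `v` modulo the ideal `N`. -/
def modQ (N : Ideal (𝓞 k)) (v : Q4 (𝓞 k)) : Q4 (𝓞 k ⧸ N) := fun i => Ideal.Quotient.mk N (v i)

/-- The local condition on `m` at `p`, modulo `p²`. -/
structure LocOK (p : HeightOneSpectrum (𝓞 k)) (m : 𝓞 k) : Prop where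
  sqf : m ∉ p.asIdeal ^ 2
  two : (2 : 𝓞 k) ∈ p.asIdeal → m ∉ p.asIdeal
  three : (3 : 𝓞 k) ∈ p.asIdeal → ∀ x : 𝓞 k, x ^ 2 + m ∉ p.asIdeal

/-- The norm of a prime. -/
noncomputable def np (p : HeightOneSpectrum (𝓞 k)) : ℝ := (Ideal.absNorm p.asIdeal : ℝ)

open Classical in
/-- The density of the local condition for `m` among all `m` (for `p ∣ 2`: among squares mod 4). -/
noncomputable def dm (p : HeightOneSpectrum (𝓞 k)) : ℝ :=
  if (2 : 𝓞 k) ∈ p.asIdeal then 1 - 1 / np p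
  else if (3 : 𝓞 k) ∈ p.asIdeal then (1 - 1 / np p) / 2
  else 1 - 1 / np p ^ 2

/-- The density of the local condition for forms. -/
noncomputable def df (p : HeightOneSpectrum (𝓞 k)) : ℝ := (1 - 1 / np p ^ 2) * dm p

end Pool.Agent.LeoK
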