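import Mathlib
import Pool.Agent.LeoK.CntDefs

/-!
# Module statements of the upper bound for the number of forms (general form)
-/

set_option autoImplicit false

open NumberField IsDedekindDomain Module MeasureTheory Filter Topology

namespace Pool.Agent.LeoK

/-- FRA: a frame exists. -/
def FraStmt : Prop :=
  ∀ (k : Type) [Field k] [NumberField k], IsTotallyReal k → Nonempty (Frame k)

/-- NOR: real embeddings and norms. -/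
def NorStmt : Prop :=
  ∀ (k : Type) [Field k] [NumberField k], IsTotallyReal k →
    Fintype.card (Sg k) = finrank ℚ k ∧
    (∀ x : k, ∏ s : Sg k, s x = ((Algebra.norm ℚ x : ℚ) : ℝ)) ∧
    ∀ x : 𝓞 k, x ≠ 0 → 1 ≤ ∏ s : Sg k, |s (x : k)| ∧
      ∏ s : Sg k, |s (x : k)| = (Ideal.absNorm (Ideal.span {x}) : ℝ)

/-! ## Soft counting -/

/-- SFT: soft upper bound for the number of points of a coset of a lattice in `t • K`, `K` compact,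
uniformly in the coset. -/
def SftStmt : Prop :=
  ∀ (E : Type) [NormedAddCommGroup E] [NormedSpace ℝ E] [FiniteDimensional ℝ E]
    [MeasurableSpace E] [BorelSpace E] (μ : Measure E) [μ.IsAddHaarMeasure]
    (ι : Type) [Fintype ι] (b : Basis ι ℝ E) (K : Set E), IsCompact K → ∀ ε : ℝ, 0 < ε →
    ∃ t₀ : ℝ, 0 < t₀ ∧ ∀ t : ℝ, t₀ ≤ t → ∀ x₀ : E,
      {y : E | y ∈ Submodule.span ℤ (Set.range b) ∧ t⁻¹ • (x₀ + y) ∈ K}.Finite ∧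
      ({y : E | y ∈ Submodule.span ℤ (Set.range b) ∧ t⁻¹ • (x₀ + y) ∈ K}.ncard : ℝ) *
        (μ (ZSpan.fundamentalDomain b)).toReal ≤ ((μ K).toReal + ε) * t ^ finrank ℝ E

/-- COV: an integral basis of an ideal and the volume of its fundamental domain. -/
def CovStmt : Prop :=
  ∀ (k : Type) [Field k] [NumberField k], IsTotallyReal k → ∀ (Φ : Frame k) (I : Ideal (𝓞 k)),
    I ≠ ⊥ → ∃ B' : Basis Φ.κ ℝ (Sg k → ℝ),
      (∀ x : Sg k → ℝ, x ∈ Submodule.span ℤ (Set.range B') ↔ ∃ y ∈ I, x = lam (y : k)) ∧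
      (volume (ZSpan.fundamentalDomain B')).toReal = Φ.D * (Ideal.absNorm I : ℝ)

/-- SWP: swapping the two indices preserves the volume. -/
def SwpStmt : Prop :=
  ∀ (σ : Type) [Fintype σ] (S : Set (Fin 4 → σ → ℝ)), MeasurableSet S →
    volume {w : σ → Fin 4 → ℝ | (fun j s => w s j) ∈ S} = volume S

/-- SF4: quadruples of integers in residue classes modulo `N`, in `t • K`. -/
def Sf4Stmt : Prop :=
  ∀ (k : Type) [Field k] [NumberField k], IsTotallyReal k → ∀ (Φ : Frame k) (N : Ideal (𝓞 k)),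
    N ≠ ⊥ → ∀ (S : Set (Q4 (𝓞 k ⧸ N))) (K : Set (Sg k → Fin 4 → ℝ)), IsCompact K → ∀ ε : ℝ, 0 < ε →
    ∃ t₀ : ℝ, 0 < t₀ ∧ ∀ t : ℝ, t₀ ≤ t →
      {v : Q4 (𝓞 k) | modQ N v ∈ S ∧ t⁻¹ • (fun (s : Sg k) (i : Fin 4) => s (v i : k)) ∈ K}.Finite ∧
      ({v : Q4 (𝓞 k) | modQ N v ∈ S ∧
          t⁻¹ • (fun (s : Sg k) (i : Fin 4) => s (v i : k)) ∈ K}.ncard : ℝ) ≤
        ((S.ncard : ℝ) / (Ideal.absNorm N : ℝ) ^ 4 * (volume K).toReal / Φ.D ^ 4 + ε) *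
          t ^ (4 * finrank ℚ k)

/-! ## Volumes -/

/-- PSH: push forward of Lebesgue measure on `ℝ⁴` under `(b/a, P/√M, M)`: density `π`. -/
def PshStmt : Prop :=
  ∀ h : ℝ × ℝ × ℝ → ENNReal, Measurable h →
    (∫⁻ w : Fin 4 → ℝ in {w | w 0 ≠ 0 ∧ 0 < qP w ∧ 0 < qM w},
        h (w 1 / w 0, qP w / Real.sqrt (qM w), qM w)) =
      ∫⁻ u : ℝ × ℝ × ℝ in {u | 0 < u.2.1 ∧ 0 < u.2.2}, h u * ENNReal.ofReal Real.pi

/-- VOL: volume of a region of quadruples over all real places. -/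
def VolStmt : Prop :=
  ∀ (σ : Type) [Fintype σ] (G A M : Set (σ → ℝ)), MeasurableSet G → MeasurableSet A →
    MeasurableSet M → (∀ x ∈ A, ∀ s, 0 < x s) → (∀ x ∈ M, ∀ s, 0 < x s) →
    volume {w : σ → Fin 4 → ℝ | (∀ s, w s 0 ≠ 0) ∧ (∀ s, 0 < qP (w s)) ∧ (∀ s, 0 < qM (w s)) ∧
        (fun s => w s 1 / w s 0) ∈ G ∧ (fun s => qP (w s) / Real.sqrt (qM (w s))) ∈ A ∧
        (fun s => qM (w s)) ∈ M} =
      ENNReal.ofReal (Real.pi ^ Fintype.card σ) * volume G * volume A * volume M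

/-- CON: properties of the cone: bounded truncations, volumes, closures. -/
def ConStmt : Prop :=
  ∀ (k : Type) [Field k] [NumberField k], IsTotallyReal k → ∀ (Φ : Frame k),
    Fintype.card (Sg k) = finrank ℚ k ∧ 0 < Φ.D ∧ 0 < Φ.vF ∧ 1 ≤ Φ.cF ∧
    (∀ x ∈ Φ.F, ∀ s, x s ≤ Φ.cF * (∏ s', x s') ^ (1 / finrank ℚ k : ℝ) ∧
      (∏ s', x s') ^ (1 / finrank ℚ k : ℝ) ≤ Φ.cF * x s) ∧
    (∀ T : ℝ, 0 < T → (volume (Φ.F ∩ {x | ∏ s, x s ≤ T})).toReal = Φ.vF * T ∧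
      volume (Φ.F ∩ {x | ∏ s, x s ≤ T}) ≠ ⊤ ∧
      volume (closure (Φ.F ∩ {x | ∏ s, x s ≤ T})) = volume (Φ.F ∩ {x | ∏ s, x s ≤ T}) ∧
      Bornology.IsBounded (Φ.F ∩ {x | ∏ s, x s ≤ T}))

/-- KET: the compact set of the main part and its volume. -/
def KetStmt : Prop :=
  ∀ (k : Type) [Field k] [NumberField k], IsTotallyReal k → ∀ (Φ : Frame k) (T η : ℝ), 0 < T →
    0 < η → ∃ K : Set (Sg k → Fin 4 → ℝ), IsCompact K ∧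
      (volume K).toReal ≤ Real.pi ^ finrank ℚ k * Φ.D * (T * Φ.vF) * Φ.vF ∧
      ∀ w : Sg k → Fin 4 → ℝ, (∀ s, η ≤ |w s 0|) → (∀ s, 0 < qP (w s)) → (∀ s, 0 < qM (w s)) →
        (fun s => w s 1 / w s 0) ∈ ZSpan.fundamentalDomain Φ.B →
        (fun s => qP (w s) / Real.sqrt (qM (w s))) ∈ Φ.F →
        ∏ s, qP (w s) / Real.sqrt (qM (w s)) ≤ T →
        (fun s => qM (w s)) ∈ Φ.F → η ≤ ∏ s, qM (w s) → ∏ s, qM (w s) ≤ 1 → w ∈ K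

/-- UPP: upper bound for the number of normalised quadruples in given residue classes, with
`|a| ≥ η m^(1/4)` at every place. -/
def UppStmt : Prop :=
  ∀ (k : Type) [Field k] [NumberField k], IsTotallyReal k → ∀ (Φ : Frame k) (N : Ideal (𝓞 k)),
    N ≠ ⊥ → ∀ (S : Set (Q4 (𝓞 k ⧸ N))) (T η ε : ℝ), 0 < T → 0 < η → η ≤ 1 → 0 < ε →
    ∃ Z₀ : ℝ, 1 ≤ Z₀ ∧ ∀ Z : ℝ, Z₀ ≤ Z →
      {v : Q4 (𝓞 k) | modQ N v ∈ S ∧ Reg Φ (ZSpan.fundamentalDomain Φ.B) Z T v ∧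
        (∀ s : Sg k, η * s ((qM v : 𝓞 k) : k) ^ (1 / 4 : ℝ) ≤ |s (v 0 : k)|) ∧
        η * Z ≤ ∏ s : Sg k, s ((qM v : 𝓞 k) : k)}.Finite ∧
      ({v : Q4 (𝓞 k) | modQ N v ∈ S ∧ Reg Φ (ZSpan.fundamentalDomain Φ.B) Z T v ∧
        (∀ s : Sg k, η * s ((qM v : 𝓞 k) : k) ^ (1 / 4 : ℝ) ≤ |s (v 0 : k)|) ∧
        η * Z ≤ ∏ s : Sg k, s ((qM v : 𝓞 k) : k)}.ncard : ℝ) ≤
        ((S.ncard : ℝ) / (Ideal.absNorm N : ℝ) ^ 4 *
          (Real.pi ^ finrank ℚ k * T * Φ.vF ^ 2 / Φ.D ^ 3) + ε) * Z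

/-! ## The crude count -/

/-- BOX: elements of `𝓞 k` in a box. -/
def BoxStmt : Prop :=
  ∀ (k : Type) [Field k] [NumberField k], IsTotallyReal k → ∃ C : ℝ, 0 < C ∧
      ∀ α L : Sg k → ℝ, (∀ s, 0 ≤ L s) →
        {x : 𝓞 k | ∀ s : Sg k, α s ≤ s (x : k) ∧ s (x : k) ≤ α s + L s}.Finite ∧
        ({x : 𝓞 k | ∀ s : Sg k, α s ≤ s (x : k) ∧ s (x : k) ≤ α s + L s}.ncard : ℝ) ≤
          C * ∏ s, (L s + 1)

/-- BCN: the number of `b` with `b / a` bounded, for given `a`. -/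
def BcnStmt : Prop :=
  ∀ (k : Type) [Field k] [NumberField k], IsTotallyReal k → ∀ R : ℝ, 0 < R → ∃ C : ℝ, 0 < C ∧
    ∀ a : 𝓞 k, a ≠ 0 →
      {b : 𝓞 k | ∀ s : Sg k, |s (b : k)| ≤ R * |s (a : k)|}.Finite ∧
      ({b : 𝓞 k | ∀ s : Sg k, |s (b : k)| ≤ R * |s (a : k)|}.ncard : ℝ) ≤
        C * ∏ s : Sg k, |s (a : k)|

/-- REA: real inequalities at one place: `X² + a² M = 4 P³`, and for given `(a, b, c)` the `d` with
`0 < M ≤ y` lie in two intervals of length `y / P^(3/2)`. -/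
def ReaStmt : Prop :=
  (∀ a b c d : ℝ, fX a b c d ^ 2 + a ^ 2 * fM a b c d = 4 * fP a b c ^ 3) ∧
  ∀ a b c y : ℝ, a ≠ 0 → 0 < fP a b c → 0 < y → ∃ α β : ℝ, ∀ d : ℝ, 0 < fM a b c d →
    fM a b c d ≤ y →
      (α ≤ d ∧ d ≤ α + y / fP a b c ^ (3 / 2 : ℝ)) ∨ (β ≤ d ∧ d ≤ β + y / fP a b c ^ (3 / 2 : ℝ))

/-- The quadruples of one dyadic cell. -/
def cell {k : Type} [Field k] [NumberField k] (cF R M ξ : ℝ) : Set (Q4 (𝓞 k)) :=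
  {v | v 0 ≠ 0 ∧ (∀ s : Sg k, |s (v 1 : k)| ≤ R * |s (v 0 : k)|) ∧
    (∀ s : Sg k, M ≤ cF * s ((qM v : 𝓞 k) : k) ∧ s ((qM v : 𝓞 k) : k) ≤ 2 * cF * M) ∧
    (∀ s : Sg k, ξ ≤ cF * (s ((qP v : 𝓞 k) : k) / Real.sqrt (s ((qM v : 𝓞 k) : k))) ∧
      s ((qP v : 𝓞 k) : k) / Real.sqrt (s ((qM v : 𝓞 k) : k)) ≤ 2 * cF * ξ)}

/-- CEL: one dyadic cell; moreover the cell is empty if `ξ^(3/2) M^(1/4)` is small. -/
def CelStmt : Prop :=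
  ∀ (k : Type) [Field k] [NumberField k], IsTotallyReal k → ∀ (cF R ξ₀ : ℝ), 1 ≤ cF → 0 < R →
    0 < ξ₀ → ∃ C : ℝ, 0 < C ∧ ∀ M ξ : ℝ, 1 / 2 ≤ M → 0 < ξ → ξ ≤ ξ₀ →
      (cell (k := k) cF R M ξ).Finite ∧
      ((cell (k := k) cF R M ξ).ncard : ℝ) ≤ C * ξ ^ finrank ℚ k * M ^ finrank ℚ k ∧
      ((cell (k := k) cF R M ξ).Nonempty → 1 ≤ C * (ξ ^ (3 / 2 : ℝ) * M ^ (1 / 4 : ℝ)))

/-- CRU: crude uniform bound for the number of normalised quadruples. -/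
def CruStmt : Prop :=
  ∀ (k : Type) [Field k] [NumberField k], IsTotallyReal k → ∀ (Φ : Frame k) (R T₀ : ℝ), 0 < R →
    0 < T₀ → ∃ C : ℝ, 0 < C ∧ ∀ Z T : ℝ, 1 ≤ Z → 0 < T → T ≤ T₀ →
      {v : Q4 (𝓞 k) | Reg Φ {x | ∀ s, |x s| ≤ R} Z T v}.Finite ∧
      ({v : Q4 (𝓞 k) | Reg Φ {x | ∀ s, |x s| ≤ R} Z T v}.ncard : ℝ) ≤ C * T * Z

/-! ## Local densities -/

/-- LOC: forms with `M = 0` over a finite local ring whose maximal ideal has square zero. -/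
def LocStmt : Prop :=
  ∀ (A : Type) [CommRing A] [Fintype A] (J : Ideal A) (q : ℕ), (∀ x : A, x ∉ J → IsUnit x) →
    (∀ x ∈ J, ∀ y ∈ J, x * y = 0) → IsUnit (2 : A) → Nat.card A = q ^ 2 → Nat.card J = q →
    Nat.card {v : Q4 A // qM v = 0} = q ^ 4 * (2 * q ^ 2 - 1)

/-- LD5: forms modulo `p²` with `M ≠ 0`, `p` prime to 6. -/
def Ld5Stmt : Prop :=
  ∀ (k : Type) [Field k] [NumberField k] (p : HeightOneSpectrum (𝓞 k)), (6 : 𝓞 k) ∉ p.asIdeal →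
    (Nat.card {v : Q4 (𝓞 k ⧸ p.asIdeal ^ 2) // qM v ≠ 0} : ℝ) =
      np p ^ 8 * (1 - 1 / np p ^ 2) ^ 2

/-- LD2: forms over a finite field of characteristic 2 with `M ≠ 0`. -/
def Ld2Stmt : Prop :=
  ∀ (A : Type) [Field A] [Fintype A], (2 : A) = 0 →
    (Nat.card {v : Q4 A // qM v ≠ 0} : ℝ) =
      (Fintype.card A : ℝ) ^ 4 * (1 - 1 / (Fintype.card A : ℝ) ^ 2) * (1 - 1 / (Fintype.card A : ℝ))

/-- LD3: forms over a finite field of characteristic 3 with `-M` not a square. -/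
def Ld3Stmt : Prop :=
  ∀ (A : Type) [Field A] [Fintype A], (3 : A) = 0 →
    (Nat.card {v : Q4 A // ∀ x : A, x ^ 2 + qM v ≠ 0} : ℝ) =
      (Fintype.card A : ℝ) ^ 4 * (1 - 1 / (Fintype.card A : ℝ) ^ 2) *
        ((1 - 1 / (Fintype.card A : ℝ)) / 2)

/-- DEN: the residue classes of forms with the local conditions at the primes of a finite set. -/
def DenStmt : Prop :=
  ∀ (k : Type) [Field k] [NumberField k] (Q : Finset (HeightOneSpectrum (𝓞 k))),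
    ∃ S : Set (Q4 (𝓞 k ⧸ ∏ p ∈ Q, p.asIdeal ^ 2)),
      (∀ v : Q4 (𝓞 k), (∀ p ∈ Q, LocOK p (qM v)) → modQ (∏ p ∈ Q, p.asIdeal ^ 2) v ∈ S) ∧
      (S.ncard : ℝ) / (Ideal.absNorm (∏ p ∈ Q, p.asIdeal ^ 2) : ℝ) ^ 4 ≤ ∏ p ∈ Q, df p

end Pool.Agent.LeoK
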