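import Mathlib
import Pool.Agent.LeoK.StrStmts

/-!
# LEO4 (general form): corollaries, final statements

Paper: PAPER_LEO4_COR.md.
-/

set_option autoImplicit false

open NumberField IsDedekindDomain WithZero Module Filter
open Pool.Agent.Helper85_Leo Pool.Agent.Leo3

namespace Pool.Agent.LeoK

/-- Leopoldt's conjecture at 3 for `K` and for every Galois extension of `K` of 3-power degree
unramified outside 3. -/
def Tower3 (K : Type) [Field K] [NumberField K] : Prop :=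
  LeopoldtAt K 3 ∧
    ∀ (E : Type) [Field E] [NumberField E] [Algebra K E] [IsGalois K E] (j : ℕ),
      finrank K E = 3 ^ j → UnrOut3 K E → LeopoldtAt E 3

/-- KCNT: the interface of the counting part.  For a totally real field `k` there are `≥ c Z`
admissible `m` of norm at most `Z`, balanced, pairwise different modulo squares, without a
form of Hessian discriminant `-m`. -/
def KcntStmt : Prop :=
  ∀ (k : Type) [Field k] [NumberField k], IsTotallyReal k →
    ∃ c B : ℝ, 0 < c ∧ ∀ᶠ Z : ℝ in atTop, ∃ S : Finset (𝓞 k), c * Z ≤ S.card ∧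
      (∀ m ∈ S, Adm k m ∧ ((Algebra.norm ℤ m).natAbs : ℝ) ≤ Z ∧
        (∀ φ ψ : k →+* ℝ, φ m ≤ B * ψ m) ∧
        ¬ ∃ a b c d : 𝓞 k, Irr a b c d ∧ (∀ φ : k →+* ℝ, 0 < φ (fP a b c : 𝓞 k)) ∧
          fM a b c d = m) ∧
      (∀ m ∈ S, ∀ m' ∈ S, IsSquare ((m : k) * m') → m = m')

/-- GEN: positive proportion over a fixed base field. -/
def GenStmt : Prop :=
  ∀ (k : Type) [Field k] [NumberField k], Rat3 k →
    ∃ c : ℝ, 0 < c ∧ ∀ᶠ X : ℝ in atTop,
      ∃ (I : Type) (_ : Fintype I) (K : I → Type) (_ : ∀ i, Field (K i))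
        (_ : ∀ i, NumberField (K i)) (_ : ∀ i, Algebra k (K i)),
        c * X ≤ Fintype.card I ∧ (∀ i i', Nonempty (K i ≃+* K i') → i = i') ∧
        ∀ i, finrank k (K i) = 2 ∧ ((discr (K i)).natAbs : ℝ) ≤ X ∧ Rat3 (K i) ∧
          (2 ≤ finrank ℚ k → ¬ IsAbelianGalois ℚ (K i))

/-- HEAD: for every `j ≥ 2` at least `c X` totally real, non-abelian fields of degree `2 ^ j`
and discriminant at most `X` satisfy Leopoldt's conjecture at 3. -/
def HeadStmt : Prop :=
  ∀ j : ℕ, 2 ≤ j → ∃ c : ℝ, 0 < c ∧ ∀ᶠ X : ℝ in atTop,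
    ∃ (I : Type) (_ : Fintype I) (K : I → Type) (_ : ∀ i, Field (K i))
      (_ : ∀ i, NumberField (K i)),
      c * X ≤ Fintype.card I ∧ (∀ i i', Nonempty (K i ≃+* K i') → i = i') ∧
      ∀ i, finrank ℚ (K i) = 2 ^ j ∧ IsTotallyReal (K i) ∧ ((discr (K i)).natAbs : ℝ) ≤ X ∧
        ¬ IsAbelianGalois ℚ (K i) ∧ Tower3 (K i)

/-- QQ: the rational field. -/
def QqStmt : Prop := Rat3 ℚ

end Pool.Agent.LeoK
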