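import Mathlib
import Pool.Agent.LeoK.UpStmts
import Pool.Agent.LeoK.CorStmts

/-!
# Counting part: marks, the family and the final inequality (module statements)

Paper: PAPER_LEO4_COUNT.md.
-/

set_option autoImplicit false

open NumberField IsDedekindDomain Module MeasureTheory Filter Topology

namespace Pool.Agent.LeoK

/-! ## Lattices -/

/-- VOR: the covering radius of a lattice is bounded in terms of the length of the shortest vector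
and the covolume. -/
def VorStmt : Prop :=
  ∀ (N : ℕ) (ρ V : ℝ), 0 < ρ → ∃ R : ℝ, ∀ b : Basis (Fin N) ℝ (EuclideanSpace ℝ (Fin N)),
    (∀ y ∈ Submodule.span ℤ (Set.range b), y ≠ 0 → ρ ≤ ‖y‖) →
    (volume (ZSpan.fundamentalDomain b)).toReal ≤ V →
    ∀ x : EuclideanSpace ℝ (Fin N), ∃ y ∈ Submodule.span ℤ (Set.range b), ‖x - y‖ ≤ R

/-- LTL: lower bound for the number of points of a coset of a lattice in `t • U`, `U` open and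
bounded, uniformly in the coset and in the lattice. -/
def LtlStmt : Prop :=
  ∀ (E : Type) [NormedAddCommGroup E] [NormedSpace ℝ E] [FiniteDimensional ℝ E]
    [MeasurableSpace E] [BorelSpace E] (μ : Measure E) [μ.IsAddHaarMeasure]
    (ι : Type) [Fintype ι] (U : Set E), IsOpen U → Bornology.IsBounded U →
    ∀ ρ V ε : ℝ, 0 < ρ → 0 < ε → ∃ t₀ : ℝ, 0 < t₀ ∧ ∀ t : ℝ, t₀ ≤ t → ∀ b : Basis ι ℝ E,
      (∀ y ∈ Submodule.span ℤ (Set.range b), y ≠ 0 → ρ ≤ ‖y‖) →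
      (μ (ZSpan.fundamentalDomain b)).toReal ≤ V → ∀ x₀ : E,
      {y : E | y ∈ Submodule.span ℤ (Set.range b) ∧ t⁻¹ • (x₀ + y) ∈ U}.Finite ∧
      ((μ U).toReal - ε) * t ^ finrank ℝ E ≤
        ({y : E | y ∈ Submodule.span ℤ (Set.range b) ∧ t⁻¹ • (x₀ + y) ∈ U}.ncard : ℝ) *
          (μ (ZSpan.fundamentalDomain b)).toReal

/-- PCK: packing bound. -/
def PckStmt : Prop :=
  ∀ (E : Type) [NormedAddCommGroup E] [NormedSpace ℝ E] [FiniteDimensional ℝ E] (D : Set E),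
    Bornology.IsBounded D → ∀ ρ : ℝ, 0 < ρ → ∃ A : ℝ, 0 < A ∧ ∀ t : ℝ, 1 ≤ t →
      ∀ L : AddSubgroup E, (∀ y ∈ L, y ≠ 0 → ρ ≤ ‖y‖) →
      {y : E | y ∈ L ∧ t⁻¹ • y ∈ D}.Finite ∧
      ({y : E | y ∈ L ∧ t⁻¹ • y ∈ D}.ncard : ℝ) ≤ A * t ^ finrank ℝ E

/-- LTZ: the basis `B i z₁, B i z₂` of `ℂⁿ` and the volume of its fundamental domain. -/
def LtzStmt : Prop :=
  ∀ (σ κ : Type) [Fintype σ] [Fintype κ] (B : Basis κ ℝ (σ → ℝ)) (z₁ z₂ : σ → ℂ),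
    (∀ s, |(starRingEnd ℂ (z₁ s) * z₂ s).im| = 1 / 2) →
    ∃ b : Basis (κ ⊕ κ) ℝ (σ → ℂ), (∀ i, b (Sum.inl i) = fun s => (B i s : ℂ) * z₁ s) ∧
      (∀ i, b (Sum.inr i) = fun s => (B i s : ℂ) * z₂ s) ∧
      (volume (ZSpan.fundamentalDomain b)).toReal =
        (volume (ZSpan.fundamentalDomain B)).toReal ^ 2 / 2 ^ Fintype.card σ

/-! ## Forms at a real place -/

/-- The value of the Hessian. -/
def hes {A : Type} [CommRing A] (v : Q4 A) (X Y : A) : A :=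
  fP (v 0) (v 1) (v 2) * X ^ 2 + fQ (v 0) (v 1) (v 2) (v 3) * X * Y + fR (v 1) (v 2) (v 3) * Y ^ 2

/-- The value of the form. -/
def val {A : Type} [CommRing A] (v : Q4 A) (X Y : A) : A := cub (v 0) (v 1) (v 2) (v 3) X Y

/-- ROT: a real form as the imaginary part of the cube of a complex linear form. -/
def RotStmt : Prop :=
  ∀ v : Q4 ℝ, 0 < qP v → 0 < qM v → ∃ z₁ z₂ : ℂ, |(starRingEnd ℂ z₁ * z₂).im| = 1 / 2 ∧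
    ∀ X Y : ℝ, ‖(X : ℂ) * z₁ + (Y : ℂ) * z₂‖ ^ 2 = hes v X Y / Real.sqrt (qM v) ∧
      (((X : ℂ) * z₁ + (Y : ℂ) * z₂) ^ 3).im = val v X Y / (2 * qM v ^ (1 / 4 : ℝ))

/-- The region of the marks. -/
def DD {k : Type} [Field k] [NumberField k] (Φ : Frame k) (η : ℝ) : Set (Sg k → ℂ) :=
  {w | (fun s => ‖w s‖ ^ 2) ∈ interior (Φ.F ∩ {x | ∏ s, x s ≤ 1}) ∧ ∀ s, η < |((w s) ^ 3).im|}

/-- VOD: volume of the region of the marks. -/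
def VodStmt : Prop :=
  ∀ (k : Type) [Field k] [NumberField k], IsTotallyReal k → ∀ (Φ : Frame k) (ε : ℝ), 0 < ε →
    ∃ η : ℝ, 0 < η ∧ IsOpen (DD Φ η) ∧ Bornology.IsBounded (DD Φ η) ∧
      Real.pi ^ finrank ℚ k * Φ.vF - ε ≤ (volume (DD Φ η)).toReal

/-! ## The number field -/

/-- REP: representatives of the ideal classes. -/
def RepStmt : Prop :=
  ∀ (k : Type) [Field k] [NumberField k], IsTotallyReal k → ∃ N₀ : ℕ, 0 < N₀ ∧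
    ∀ I : Ideal (𝓞 k), I ≠ ⊥ → ∃ (r : Ideal (𝓞 k)) (α β : 𝓞 k), α ≠ 0 ∧ β ≠ 0 ∧
      (N₀ : 𝓞 k) ∈ r ∧ Ideal.span {β} * I = Ideal.span {α} * r ∧
      (Ideal.absNorm I : ℝ) * ∏ s : Sg k, |s (β : k)| ≤ N₀ * ∏ s : Sg k, |s (α : k)| ∧
      ∏ s : Sg k, |s (α : k)| ≤ (Ideal.absNorm I : ℝ) * ∏ s : Sg k, |s (β : k)|

/-- `1 / ζ_k(2)`. -/
noncomputable def Pk (k : Type) [Field k] [NumberField k] : ℝ :=
  ⨅ Q : Finset (HeightOneSpectrum (𝓞 k)), ∏ p ∈ Q, (1 - 1 / np p ^ 2)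

/-- The product of the local densities of the family. -/
noncomputable def Dk (k : Type) [Field k] [NumberField k] : ℝ :=
  ⨅ Q : Finset (HeightOneSpectrum (𝓞 k)), ∏ p ∈ Q, dm p

/-- PIK: the products over the primes. -/
def PikStmt : Prop :=
  ∀ (k : Type) [Field k] [NumberField k],
    Summable (fun p : HeightOneSpectrum (𝓞 k) => 1 / np p ^ 2) ∧ 0 < Pk k ∧ 0 < Dk k ∧
    {p : HeightOneSpectrum (𝓞 k) | (6 : 𝓞 k) ∈ p.asIdeal}.Finite ∧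
    (∀ Q : Finset (HeightOneSpectrum (𝓞 k)), Pk k ≤ ∏ p ∈ Q, (1 - 1 / np p ^ 2) ∧
      Dk k ≤ ∏ p ∈ Q, dm p) ∧
    ∀ ε : ℝ, 0 < ε → ∃ Q₀ : Finset (HeightOneSpectrum (𝓞 k)), ∀ Q, Q₀ ⊆ Q →
      ∏ p ∈ Q, (1 - 1 / np p ^ 2) ≤ Pk k + ε ∧ ∏ p ∈ Q, dm p ≤ Dk k + ε

/-- RES: congruence conditions modulo coprime ideals are independent. -/
def ResStmt : Prop :=
  ∀ (R : Type) [CommRing R] (ι τ : Type) [Fintype ι] [Fintype τ] (I : ι → Ideal R),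
    (∀ i j, i ≠ j → IsCoprime (I i) (I j)) → ∀ S : ∀ i, Set (τ → R ⧸ I i),
    ∃ T : Set (τ → R ⧸ ∏ i, I i),
      (∀ x : τ → R, (fun a => Ideal.Quotient.mk (∏ i, I i) (x a)) ∈ T ↔
        ∀ i, (fun a => Ideal.Quotient.mk (I i) (x a)) ∈ S i) ∧
      T.ncard = ∏ i, (S i).ncard

/-- LM2: the squares of the units modulo four. -/
def Lm2Stmt : Prop :=
  ∀ (k : Type) [Field k] [NumberField k],
    Nat.card {x : 𝓞 k ⧸ Ideal.span {(4 : 𝓞 k)} // ∃ q, IsUnit q ∧ q ^ 2 + x = 0} *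
      2 ^ finrank ℚ k = Nat.card (𝓞 k ⧸ Ideal.span {(4 : 𝓞 k)})ˣ

/-- LMU: the number of units modulo four. -/
def LmuStmt : Prop :=
  ∀ (k : Type) [Field k] [NumberField k] (Q : Finset (HeightOneSpectrum (𝓞 k))),
    (∀ p : HeightOneSpectrum (𝓞 k), p ∈ Q ↔ (2 : 𝓞 k) ∈ p.asIdeal) →
    (Nat.card (𝓞 k ⧸ Ideal.span {(4 : 𝓞 k)})ˣ : ℝ) = 4 ^ finrank ℚ k * ∏ p ∈ Q, (1 - 1 / np p)

/-- LM3: the local conditions for `m` at a prime not above 2. -/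
def Lm3Stmt : Prop :=
  ∀ (k : Type) [Field k] [NumberField k] (p : HeightOneSpectrum (𝓞 k)), (2 : 𝓞 k) ∉ p.asIdeal →
    ((3 : 𝓞 k) ∈ p.asIdeal →
      (Nat.card {x : 𝓞 k ⧸ p.asIdeal // ∀ y, y ^ 2 + x ≠ 0} : ℝ) = np p * dm p) ∧
    ((3 : 𝓞 k) ∉ p.asIdeal →
      (Nat.card {x : 𝓞 k ⧸ p.asIdeal ^ 2 // x ≠ 0} : ℝ) = np p ^ 2 * dm p)

/-- PRC: residue classes of pairs which are primitive at the primes of `Q`. -/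
def PrcStmt : Prop :=
  ∀ (k : Type) [Field k] [NumberField k] (Q : Finset (HeightOneSpectrum (𝓞 k))),
    ∃ S : Set ((𝓞 k ⧸ ∏ p ∈ Q, p.asIdeal) × (𝓞 k ⧸ ∏ p ∈ Q, p.asIdeal)),
      (∀ X Y : 𝓞 k, (Ideal.Quotient.mk (∏ p ∈ Q, p.asIdeal) X,
          Ideal.Quotient.mk (∏ p ∈ Q, p.asIdeal) Y) ∈ S →
        ∀ p ∈ Q, ¬ (X ∈ p.asIdeal ∧ Y ∈ p.asIdeal)) ∧
      (∏ p ∈ Q, (1 - 1 / np p ^ 2)) * (Ideal.absNorm (∏ p ∈ Q, p.asIdeal) : ℝ) ^ 2 ≤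
        (S.ncard : ℝ)

/-- MRC: residue classes of the family, with the local conditions at the primes of `Q`. -/
def MrcStmt : Prop :=
  ∀ (k : Type) [Field k] [NumberField k] (Q : Finset (HeightOneSpectrum (𝓞 k))),
    (∀ p : HeightOneSpectrum (𝓞 k), (2 : 𝓞 k) ∈ p.asIdeal → p ∈ Q) →
    ∃ (N : Ideal (𝓞 k)) (S : Set (𝓞 k ⧸ N)), N ≠ ⊥ ∧
      (∀ m : 𝓞 k, Ideal.Quotient.mk N m ∈ S →
        (∃ q : 𝓞 k, (4 : 𝓞 k) ∣ q ^ 2 + m) ∧ ∀ p ∈ Q, LocOK p m) ∧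
      (∏ p ∈ Q, dm p) / 2 ^ finrank ℚ k * (Ideal.absNorm N : ℝ) ≤ (S.ncard : ℝ)

/-! ## Marks -/

/-- The normalised value of the Hessian. -/
noncomputable def hx {k : Type} [Field k] [NumberField k] (v : Q4 (𝓞 k)) (X Y : 𝓞 k) : Sg k → ℝ :=
  fun s => s ((hes v X Y : 𝓞 k) : k) / Real.sqrt (s ((qM v : 𝓞 k) : k))

/-- The good marks of a form. -/
def Mks {k : Type} [Field k] [NumberField k] (Φ : Frame k) (T η : ℝ) (v : Q4 (𝓞 k)) :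
    Set (𝓞 k × 𝓞 k) :=
  {p | IsCoprime p.1 p.2 ∧ hx v p.1 p.2 ∈ Φ.F ∧ ∏ s, hx v p.1 p.2 s ≤ T ∧
    ∀ s : Sg k, η * s ((qM v : 𝓞 k) : k) ^ (1 / 4 : ℝ) ≤ |s ((val v p.1 p.2 : 𝓞 k) : k)|}

/-- A positive form without short vectors. -/
structure Lrg {k : Type} [Field k] [NumberField k] (δ : ℝ) (v : Q4 (𝓞 k)) : Prop where
  posP : ∀ s : Sg k, 0 < s ((qP v : 𝓞 k) : k)
  posM : ∀ s : Sg k, 0 < s ((qM v : 𝓞 k) : k)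
  short : ∀ X Y : 𝓞 k, (X ≠ 0 ∨ Y ≠ 0) → δ ≤ ∏ s, hx v X Y s

/-- LWT: the vectors divisible by a prime. -/
def LwtStmt : Prop :=
  ∀ (k : Type) [Field k] [NumberField k], IsTotallyReal k → ∀ (Φ : Frame k) (δ : ℝ), 0 < δ →
    ∃ A : ℝ, 0 < A ∧ ∀ v : Q4 (𝓞 k), Lrg δ v → ∀ T : ℝ, 0 < T →
    {p : 𝓞 k × 𝓞 k | hx v p.1 p.2 ∈ Φ.F ∧ ∏ s, hx v p.1 p.2 s ≤ T}.Finite ∧
    ∀ q : HeightOneSpectrum (𝓞 k),
      ({p : 𝓞 k × 𝓞 k | p.1 ∈ q.asIdeal ∧ p.2 ∈ q.asIdeal ∧ hx v p.1 p.2 ∈ Φ.F ∧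
        ∏ s, hx v p.1 p.2 s ≤ T}.ncard : ℝ) ≤ A * T / np q ^ 2

/-- LWA: the good vectors which are primitive at the primes of `Q`. -/
def LwaStmt : Prop :=
  ∀ (k : Type) [Field k] [NumberField k], IsTotallyReal k → ∀ (Φ : Frame k) (ε : ℝ), 0 < ε →
    ∃ η : ℝ, 0 < η ∧ ∀ (δ : ℝ) (Q : Finset (HeightOneSpectrum (𝓞 k))), 0 < δ →
    ∃ T₀ : ℝ, 0 < T₀ ∧ ∀ T : ℝ, T₀ ≤ T → ∀ v : Q4 (𝓞 k), Lrg δ v →
    (∏ p ∈ Q, (1 - 1 / np p ^ 2)) * ((2 * Real.pi) ^ finrank ℚ k * Φ.vF - ε) * T / Φ.D ^ 2 ≤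
      ({p : 𝓞 k × 𝓞 k | (∀ q ∈ Q, ¬ (p.1 ∈ q.asIdeal ∧ p.2 ∈ q.asIdeal)) ∧
        hx v p.1 p.2 ∈ Φ.F ∧ ∏ s, hx v p.1 p.2 s ≤ T ∧
        ∀ s : Sg k, η * s ((qM v : 𝓞 k) : k) ^ (1 / 4 : ℝ) ≤
          |s ((val v p.1 p.2 : 𝓞 k) : k)|}.ncard : ℝ)

/-- LOW: many good marks. -/
def LowStmt : Prop :=
  ∀ (k : Type) [Field k] [NumberField k], IsTotallyReal k → ∀ (Φ : Frame k) (δ ε : ℝ), 0 < δ →
    0 < ε → ∃ T η : ℝ, 0 < T ∧ 0 < η ∧ η ≤ 1 ∧ ∀ v : Q4 (𝓞 k), Lrg δ v → (Mks Φ T η v).Finite ∧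
    (1 - ε) * (Pk k * (2 * Real.pi) ^ finrank ℚ k * Φ.vF * T / Φ.D ^ 2) ≤
      ((Mks Φ T η v).ncard : ℝ)

/-! ## The family -/

/-- The family up to norm `Z`. -/
def Mset {k : Type} [Field k] [NumberField k] (Φ : Frame k) (Z : ℝ) : Set (𝓞 k) :=
  {m | lam (m : k) ∈ Φ.F ∧ ∏ s : Sg k, s (m : k) ≤ Z ∧ (∃ q : 𝓞 k, (4 : 𝓞 k) ∣ q ^ 2 + m) ∧
    ∀ p : HeightOneSpectrum (𝓞 k), LocOK p m}

/-- USQ: only units `m` have `3 m` a square. -/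
def UsqStmt : Prop :=
  ∀ (k : Type) [Field k] [NumberField k], IsTotallyReal k → ∀ (m : 𝓞 k) (x : k),
    (∀ p : HeightOneSpectrum (𝓞 k), LocOK p m) → x ^ 2 = 3 * (m : k) →
    ∏ s : Sg k, |s (m : k)| = 1

/-- MST: all integers of the cone, and those divisible by the square of a prime. -/
def MstStmt : Prop :=
  ∀ (k : Type) [Field k] [NumberField k], IsTotallyReal k → ∀ Φ : Frame k,
    ∃ A : ℝ, 0 < A ∧ ∀ Z : ℝ, 0 < Z →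
    {m : 𝓞 k | lam (m : k) ∈ Φ.F ∧ ∏ s : Sg k, s (m : k) ≤ Z}.Finite ∧
    (({m : 𝓞 k | lam (m : k) ∈ Φ.F ∧ ∏ s : Sg k, s (m : k) ≤ Z}.ncard : ℝ) ≤ A * Z) ∧
    ∀ p : HeightOneSpectrum (𝓞 k),
      ({m : 𝓞 k | m ∈ p.asIdeal ^ 2 ∧ lam (m : k) ∈ Φ.F ∧
        ∏ s : Sg k, s (m : k) ≤ Z}.ncard : ℝ) ≤ A * Z / np p ^ 2

/-- MSA: integers of the cone in residue classes. -/
def MsaStmt : Prop :=
  ∀ (k : Type) [Field k] [NumberField k], IsTotallyReal k → ∀ (Φ : Frame k) (N : Ideal (𝓞 k)),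
    N ≠ ⊥ → ∀ (S : Set (𝓞 k ⧸ N)) (ε : ℝ), 0 < ε → ∃ Z₀ : ℝ, ∀ Z : ℝ, Z₀ ≤ Z →
    ((S.ncard : ℝ) / (Ideal.absNorm N : ℝ) * Φ.vF / Φ.D - ε) * Z ≤
      ({m : 𝓞 k | Ideal.Quotient.mk N m ∈ S ∧ lam (m : k) ∈ Φ.F ∧
        ∏ s : Sg k, s (m : k) ≤ Z}.ncard : ℝ)

/-- MSQ: the size of the family. -/
def MsqStmt : Prop :=
  ∀ (k : Type) [Field k] [NumberField k], IsTotallyReal k → ∀ Φ : Frame k,
    (∀ Z : ℝ, (Mset Φ Z).Finite) ∧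
    (∃ A : ℝ, 0 < A ∧ ∀ Z : ℝ, 0 < Z → ((Mset Φ Z).ncard : ℝ) ≤ A * Z) ∧
    ∀ ε : ℝ, 0 < ε → ∃ Z₀ : ℝ, ∀ Z : ℝ, Z₀ ≤ Z →
      (Dk k * Φ.vF / (Φ.D * 2 ^ finrank ℚ k) - ε) * Z ≤ ((Mset Φ Z).ncard : ℝ)

/-! ## Forms and marks -/

/-- The form `f (x X + y Y, z X + w Y)`. -/
def act {A : Type} [CommRing A] (v : Q4 A) (x y z w : A) : Q4 A :=
  ![cub (v 0) (v 1) (v 2) (v 3) x z,
    v 0 * x ^ 2 * y + v 1 * (x ^ 2 * w + 2 * x * y * z) + v 2 * (2 * x * z * w + y * z ^ 2) +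
      v 3 * z ^ 2 * w,
    v 0 * x * y ^ 2 + v 1 * (2 * x * y * w + y ^ 2 * z) + v 2 * (x * w ^ 2 + 2 * y * z * w) +
      v 3 * z * w ^ 2,
    cub (v 0) (v 1) (v 2) (v 3) y w]

/-- ACT: the action of matrices on forms. -/
def ActStmt : Prop :=
  ∀ (A : Type) [CommRing A] (v : Q4 A) (x y z w : A),
    qM (act v x y z w) = (x * w - y * z) ^ 6 * qM v ∧
    qP (act v x y z w) = (x * w - y * z) ^ 2 * hes v x z ∧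
    (∀ X Y : A, val (act v x y z w) X Y = val v (x * X + y * Y) (z * X + w * Y)) ∧
    (∀ X Y : A, hes (act v x y z w) X Y =
      (x * w - y * z) ^ 2 * hes v (x * X + y * Y) (z * X + w * Y)) ∧
    (∀ x' y' z' w' : A, act (act v x y z w) x' y' z' w' =
      act v (x * x' + y * z') (x * y' + y * w') (z * x' + w * z') (z * y' + w * w')) ∧
    4 * qP v * hes v x z = (2 * qP v * x + fQ (v 0) (v 1) (v 2) (v 3) * z) ^ 2 + qM v * z ^ 2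

/-- The mirror image `f (- x, y)`. -/
def mir {A : Type} [CommRing A] (v : Q4 A) : Q4 A := ![-v 0, v 1, -v 2, v 3]

/-- The normalised forms with given `m` and large first coefficient. -/
def Wset {k : Type} [Field k] [NumberField k] (Φ : Frame k) (T η : ℝ) (m : 𝓞 k) :
    Set (Q4 (𝓞 k)) :=
  {w | qM w = m ∧ w 0 ≠ 0 ∧
    (fun s : Sg k => s (w 1 : k) / s (w 0 : k)) ∈ ZSpan.fundamentalDomain Φ.B ∧
    (fun s : Sg k => s ((qP w : 𝓞 k) : k) / Real.sqrt (s ((qM w : 𝓞 k) : k))) ∈ Φ.F ∧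
    ∏ s : Sg k, s ((qP w : 𝓞 k) : k) / Real.sqrt (s ((qM w : 𝓞 k) : k)) ≤ T ∧
    ∀ s : Sg k, η * s ((qM w : 𝓞 k) : k) ^ (1 / 4 : ℝ) ≤ |s (w 0 : k)|}

/-- INJ: the marks of an irreducible form and of its mirror image give different forms. -/
def InjStmt : Prop :=
  ∀ (k : Type) [Field k] [NumberField k], IsTotallyReal k → ∀ (Φ : Frame k) (T η : ℝ)
    (v : Q4 (𝓞 k)), Irr (v 0) (v 1) (v 2) (v 3) → (∀ s : Sg k, 0 < s ((qP v : 𝓞 k) : k)) →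
    (∀ s : Sg k, 0 < s ((qM v : 𝓞 k) : k)) → (∀ x : k, x ^ 2 ≠ 3 * ((qM v : 𝓞 k) : k)) →
    (Wset Φ T η (qM v)).Finite →
    (Mks Φ T η v).ncard + (Mks Φ T η (mir v)).ncard ≤ (Wset Φ T η (qM v)).ncard

/-- NRF: normalisation of a form by a unit and a translation. -/
def NrfStmt : Prop :=
  ∀ (k : Type) [Field k] [NumberField k], IsTotallyReal k → ∀ (Φ : Frame k) (v : Q4 (𝓞 k)),
    v 0 ≠ 0 → (∀ s : Sg k, 0 < s ((qP v : 𝓞 k) : k)) →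
    (∀ s : Sg k, 0 < s ((qM v : 𝓞 k) : k)) →
    ∃ w : Q4 (𝓞 k), qM w = qM v ∧ w 0 ≠ 0 ∧
      (fun s : Sg k => s (w 1 : k) / s (w 0 : k)) ∈ ZSpan.fundamentalDomain Φ.B ∧
      (fun s : Sg k => s ((qP w : 𝓞 k) : k) / Real.sqrt (s ((qM w : 𝓞 k) : k))) ∈ Φ.F ∧
      ∏ s : Sg k, s ((qP w : 𝓞 k) : k) / Real.sqrt (s ((qM w : 𝓞 k) : k)) =
        ∏ s : Sg k, s ((qP v : 𝓞 k) : k) / Real.sqrt (s ((qM v : 𝓞 k) : k))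

/-- SMV: a short vector gives a form with small first Hessian coefficient. -/
def SmvStmt : Prop :=
  ∀ (k : Type) [Field k] [NumberField k], IsTotallyReal k → ∃ (N₀ : ℕ) (A : ℝ), 0 < N₀ ∧ 0 < A ∧
    ∀ (v : Q4 (𝓞 k)) (X Y : 𝓞 k), Irr (v 0) (v 1) (v 2) (v 3) →
    (∀ s : Sg k, 0 < s ((qP v : 𝓞 k) : k)) → (∀ s : Sg k, 0 < s ((qM v : 𝓞 k) : k)) →
    (X ≠ 0 ∨ Y ≠ 0) → ∃ w : Q4 (𝓞 k), qM w = (N₀ : 𝓞 k) ^ 6 * qM v ∧ w 0 ≠ 0 ∧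
      (∀ s : Sg k, 0 < s ((qP w : 𝓞 k) : k)) ∧
      ∏ s : Sg k, s ((qP w : 𝓞 k) : k) / Real.sqrt (s ((qM w : 𝓞 k) : k)) ≤
        A * ∏ s, hx v X Y s

/-- EXC: few `m` have a form with a short vector. -/
def ExcStmt : Prop :=
  ∀ (k : Type) [Field k] [NumberField k], IsTotallyReal k → ∀ Φ : Frame k, ∃ A : ℝ, 0 < A ∧
    ∀ δ Z : ℝ, 0 < δ → δ ≤ 1 → 1 ≤ Z →
    ({m : 𝓞 k | lam (m : k) ∈ Φ.F ∧ ∏ s : Sg k, s (m : k) ≤ Z ∧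
      ∃ (v : Q4 (𝓞 k)) (X Y : 𝓞 k), qM v = m ∧ Irr (v 0) (v 1) (v 2) (v 3) ∧
        (∀ s : Sg k, 0 < s ((qP v : 𝓞 k) : k)) ∧ (X ≠ 0 ∨ Y ≠ 0) ∧
        ∏ s, hx v X Y s < δ}.ncard : ℝ) ≤ A * δ * Z

/-- CNT: the theorem of the counting part.  (`KcntStmt` follows from it, `AdmStmt` and
`FraStmt`: module KCN.) -/
def CntStmt : Prop :=
  ∀ (k : Type) [Field k] [NumberField k], IsTotallyReal k → ∀ Φ : Frame k,
    (∀ Z : ℝ, (Mset Φ Z).Finite) ∧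
    (∃ c : ℝ, 0 < c ∧ ∀ᶠ Z : ℝ in atTop, c * Z ≤ ((Mset Φ Z).ncard : ℝ)) ∧
    ∀ ε : ℝ, 0 < ε → ∀ᶠ Z : ℝ in atTop,
      ({m | m ∈ Mset Φ Z ∧ ((∃ x : k, x ^ 2 = 3 * (m : k)) ∨
        ∃ a b c d : 𝓞 k, Irr a b c d ∧ (∀ φ : k →+* ℝ, 0 < φ (fP a b c : 𝓞 k)) ∧
          fM a b c d = m)}.ncard : ℝ) ≤ (1 / 2 + ε) * ((Mset Φ Z).ncard : ℝ)

end Pool.Agent.LeoK
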