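import Mathlib
import Pool.Agent.LeoK.CountStmts

/-!
# LEOK: final statements for arbitrary totally real base fields
-/

set_option autoImplicit false

open NumberField IsDedekindDomain WithZero Module Filter
open Pool.Agent.Helper85_Leo Pool.Agent.Leo3

namespace Pool.Agent.LeoK

/-- What is proved for a quadratic extension `K / k`: Leopoldt's conjecture at 3 goes up from `k` to
`K`, and also from `M` to `K M` for every Galois extension `M / k` of 3-power degree whose tame
ramified primes have only one prime of `K` above them; and if `k` is in the class `Rat3` then so is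
`K`, with Leopoldt's conjecture at 3 for all Galois extensions of `K` of 3-power degree unramified
outside 3. -/
structure GoodExt (k K : Type) [Field k] [NumberField k] [Field K] [NumberField K] [Algebra k K] :
    Prop where
  real : IsTotallyReal K
  nomu : NoMu K
  wminus : WMinus k K
  leo : LeopoldtAt k 3 → LeopoldtAt K 3
  tower : ∀ (M L : Type) [Field M] [NumberField M] [Field L] [NumberField L] [Algebra k M]
    [Algebra k L] [Algebra K L] [Algebra M L] [IsScalarTower k K L] [IsScalarTower k M L]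
    [IsGalois k M] (j : ℕ), finrank k M = 3 ^ j → finrank M L = 2 → TameNonsplit k K M →
    LeopoldtAt M 3 → LeopoldtAt L 3
  rat : Rat3 k → Rat3 K ∧ ¬ 3 ∣ Fintype.card (ClassGroup (𝓞 K)) ∧ Tower3 K

/-- REL: a positive proportion of the quadratic extensions of any totally real field without
local cube roots of unity and of class number prime to 3. -/
def RelStmt : Prop :=
  ∀ (k : Type) [Field k] [NumberField k], IsTotallyReal k → NoMu k →
    ¬ 3 ∣ Fintype.card (ClassGroup (𝓞 k)) →
    ∃ c : ℝ, 0 < c ∧ ∀ᶠ X : ℝ in atTop,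
      ∃ (I : Type) (_ : Fintype I) (K : I → Type) (_ : ∀ i, Field (K i))
        (_ : ∀ i, NumberField (K i)) (_ : ∀ i, Algebra k (K i)),
        c * X ≤ Fintype.card I ∧ (∀ i i', Nonempty (K i ≃+* K i') → i = i') ∧
        ∀ i, finrank k (K i) = 2 ∧ ((discr (K i)).natAbs : ℝ) ≤ X ∧ GoodExt k (K i) ∧
          (2 ≤ finrank ℚ k → ¬ IsAbelianGalois ℚ (K i))

/-- HALF: at least half of the family. -/
def HalfStmt : Prop :=
  ∀ (k : Type) [Field k] [NumberField k], IsTotallyReal k → NoMu k →
    ¬ 3 ∣ Fintype.card (ClassGroup (𝓞 k)) → ∀ Φ : Frame k, (∀ Z : ℝ, (Mset Φ Z).Finite) ∧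
    (∃ c : ℝ, 0 < c ∧ ∀ᶠ Z : ℝ in atTop, c * Z ≤ ((Mset Φ Z).ncard : ℝ)) ∧
    ∀ ε : ℝ, 0 < ε → ∀ᶠ Z : ℝ in atTop,
      (1 / 2 - ε) * ((Mset Φ Z).ncard : ℝ) ≤
        ({m | m ∈ Mset Φ Z ∧ (∀ x : k, x ^ 2 ≠ 3 * (m : k)) ∧
          ∀ (K : Type) [Field K] [NumberField K] [Algebra k K] (r : K), finrank k K = 2 →
            r ^ 2 = algebraMap k K (3 * (m : k)) → GoodExt k K}.ncard : ℝ)

end Pool.Agent.LeoK
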