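import Pool.Agent.LeoK.RelStmts
import Pool.Agent.Helper71_LeoK.Apx
import Pool.Agent.Helper59_LeoK.Phi
import Pool.Agent.Helper59_LeoK.Leo3
import Pool.Agent.Helper59_LeoK.Quo
import Pool.Agent.Helper59_LeoK.Kcn
import Pool.Agent.Helper59_LeoK.Inj
import Pool.Agent.Helper59_LeoK.Rel
import Pool.Agent.Helper90_LeoK.Ld2
import Pool.Agent.Helper90_LeoK.Qlo
import Pool.Agent.Helper90_LeoK.Rea
import Pool.Agent.Helper90_LeoK.Ref
import Pool.Agent.Helper90_LeoK.Res
import Pool.Agent.Helper90_LeoK.Usq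
import Pool.Agent.Helper69_LeoK.Nmf
import Pool.Agent.Helper75_LeoK.Redm
import Pool.Agent.Helper75_LeoK.Leor
import Pool.Agent.Helper79_LeoK.Str
import Pool.Agent.Helper79_LeoK.Twi
import Pool.Agent.Helper86_LeoK.Hil
import Pool.Agent.Helper67_LeoK.Prc
import Pool.Agent.Helper67_LeoK.Unr
import Pool.Agent.Helper32_LeoK.Cub
import Pool.Agent.Helper32_LeoK.Eis
import Pool.Agent.Helper32_LeoK.Rnk
import Pool.Agent.Helper77_LeoK.Qua
import Pool.Agent.Helper77_LeoK.Stab
import Pool.Agent.Helper61_LeoK.Bas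
import Pool.Agent.Helper61_LeoK.Idl
import Pool.Agent.Helper2_LeoK.Box
import Pool.Agent.Helper2_LeoK.Inh
import Pool.Agent.Helper11_LeoK.Adm
import Pool.Agent.Helper11_LeoK.Den
import Pool.Agent.Helper19_LeoK.Gup3
import Pool.Agent.Helper19_LeoK.Vor
import Pool.Agent.Helper5_LeoK.Ltl
import Pool.Agent.Helper13_LeoK.EXC
import Pool.Agent.Helper13_LeoK.LOW
import Pool.Agent.Helper13_LeoK.MSQ
import Pool.Agent.Helper24_LeoK.Cel
import Pool.Agent.Helper24_LeoK.Ltz
import Pool.Agent.Helper24_LeoK.Sft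
import Pool.Agent.Helper25_LeoK.Cru
import Pool.Agent.Helper25_LeoK.Ket
import Pool.Agent.Helper26_LeoK.Act
import Pool.Agent.Helper26_LeoK.Nrf
import Pool.Agent.Helper26_LeoK.Smv
import Pool.Agent.Helper29_LeoK.Sf4
import Pool.Agent.Helper29_LeoK.Swp
import Pool.Agent.Helper33_LeoK.Cnt
import Pool.Agent.Helper37_LeoK.Mrc
import Pool.Agent.Helper37_LeoK.Msa
import Pool.Agent.Helper37_LeoK.Pck
import Pool.Agent.Helper41_LeoK.ROT
import Pool.Agent.Helper41_LeoK.VOD
import Pool.Agent.Helper56_LeoK.Cov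
import Pool.Agent.Helper64_LeoK.Lwt
import Pool.Agent.Helper64_LeoK.Mst
import Pool.Agent.Helper65_LeoK.Ld3
import Pool.Agent.Helper65_LeoK.Pik
import Pool.Agent.Helper65_LeoK.Rep
import Pool.Agent.Helper65_Leo3.Crt
import Pool.Agent.Helper76_LeoK.Lwa
import Pool.Agent.Helper81_LeoK.Lm3
import Pool.Agent.Helper83_LeoK.Fra
import Pool.Agent.Helper83_LeoK.Nor
import Pool.Agent.Helper85_LeoK.Bcn
import Pool.Agent.Helper89_LeoK.Lm2
import Pool.Agent.Helper89_LeoK.Lmu
import Pool.Agent.Helper91_LeoK.Cone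
import Pool.Agent.Helper91_LeoK.Upp
import Pool.Agent.Helper52_LeoK.Ld5
import Pool.Agent.Helper52_LeoK.Loc
import Pool.Agent.Helper27_LeoK.Rat
import Pool.Agent.Helper43_LeoK.Psh
import Pool.Agent.Helper43_LeoK.Vol

/-!
# LEOK: assembly of all modules
-/

set_option autoImplicit false

namespace Pool.Agent.LeoK.Asm

/-! ## geometry and counting -/

theorem nor : NorStmt := H83.nor
theorem con : ConStmt := H91.con nor
theorem sf4 : Sf4Stmt := H29.sf4 H24.sft H56.cov H29.swp nor
theorem bcn : BcnStmt := H85.bcn H2.box nor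
theorem cel : CelStmt := H24.cel H2.box bcn H90.rea nor
theorem cru : CruStmt := H25.cru cel con nor
theorem den : DenStmt := H11.den (H52.ld5 H52.loc) H90.ld2 H65.ld3
theorem vol : VolStmt := H43V.vol H43.psh
theorem upp : UppStmt := H91.upp (H25.ket con vol H90.rea) sf4 con
theorem rep : RepStmt := H65.rep nor
theorem mrc : MrcStmt := H37.mrc H90.res H89.lm2 H89.lmu H81.lm3
theorem prc : PrcStmt := H67.prc H90.res
theorem lwt : LwtStmt := H64.lwt H37.pck H41.rot rep con nor
theorem mst : MstStmt := H64.mst H37.pck rep con nor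
theorem ltl : LtlStmt := H5.ltl H19.vor
theorem msa : MsaStmt := H37.msa ltl H56.cov con
theorem lwa : LwaStmt :=
  H76.lwa ltl H24.ltz H41.rot (H41.vod con) prc H56.cov con lwt
theorem low : LowStmt := H13.low lwa lwt H65.pik
theorem msq : MsqStmt := H13.msq mrc msa mst H65.pik
theorem nrf : NrfStmt := H26.nrf nor
theorem smv : SmvStmt := H26.smv rep
theorem exc : ExcStmt := H13.exc smv nrf cru
theorem inj : InjStmt := H59.inj H26.actStmt H77.orb
theorem usq : UsqStmt := H90.usq nor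
theorem cnt : CntStmt :=
  H33.cnt low msq mst upp den inj exc usq H65.pik con
theorem adm : AdmStmt := H11.adm H71.apx
theorem kcnt : KcntStmt :=
  H59.kcn cnt adm H83.fra nor

/-! ## algebra -/

theorem unr : UnrStmt := H67.unr H71.apx H59.phi
theorem ref : RefStmt := H90.ref unr H86.hil H32.rnk_
theorem eis : EisStmt := H32.eis_ H77.qua H61.bas H61.idl H32.cub_
theorem str : StrStmt := H79.str H69.nmf H75.redm ref eis
theorem rat : RatStmt := H27.rat
theorem inh : InhStmt := H2.inh H69.redp H75.leor H79.twi rat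
theorem leo3 : Leo3Stmt := H59.leo3 Pool.Agent.Leo3.H65.crt
theorem gup3 : Gup3Stmt := H19.gup3

/-! ## final statements -/

theorem rel : RelStmt :=
  H59.rel kcnt str inh leo3 gup3
theorem half : HalfStmt :=
  H59.half cnt adm nor str inh leo3 gup3
theorem gen : GenStmt :=
  Pool.Agent.LEO4.H59.gen kcnt str inh rat
theorem head : HeadStmt :=
  Pool.Agent.LEO4.H59.head gen H59.qq leo3 gup3

end Pool.Agent.LeoK.Asm

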